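import Mathlib
import Pool.Agent.H.MP_1d00e6_al.A

set_option autoImplicit false

namespace Pool.Agent.H.MP_debbfb_al
open Pool.Agent.H.MP_1d00e6_al

section wa
variable {A N P I : Type} [Group A] [Group P] (σ : A →* Equiv.Perm N) (ρ : P →* Equiv.Perm I)

@[reducible] def waM : MulAction (Wr σ P) (N × I) where
  smul x z := (σ x.a z.1, ρ (x.f (σ x.a z.1)) z.2)
  one_smul z := by
    change (σ 1 z.1, ρ 1 z.2) = z
    simp
  mul_smul x y z := by
    change (σ (x.a * y.a) z.1, ρ (x.f _ * y.f (σ x.a⁻¹ (σ (x.a * y.a) z.1))) z.2) =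
      (σ x.a (σ y.a z.1), ρ (x.f (σ x.a (σ y.a z.1))) (ρ (y.f (σ y.a z.1)) z.2))
    simp

/-- imprimitive action of the wreath product -/
def wa : Wr σ P →* Equiv.Perm (N × I) := @MulAction.toPermHom _ _ _ (waM σ ρ)

lemma wa_ap (x : Wr σ P) (z : N × I) :
    wa σ ρ x z = (σ x.a z.1, ρ (x.f (σ x.a z.1)) z.2) := rfl

end wa

variable (p : ℕ) (T : Type) [Group T]

structure Gd where
  P : Type
  I : Type
  [gP : Group P]
  [fP : Finite P]
  [fI : Finite I]
  pP : IsPGroup p P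
  ρ : P →* Equiv.Perm I
  θ : I → T →* T
  c : I → T
  inj : ∃ i, Function.Injective (θ i)

attribute [instance] Gd.gP Gd.fP Gd.fI

variable {p T}

def Gd.R (X : Gd p T) (t u : T) : Prop :=
  ∃ g : X.P, ∀ i, X.θ (X.ρ g i) u * X.c (X.ρ g i) = X.θ i t * X.c i

lemma Gd.refl (X : Gd p T) (t : T) : X.R t t := ⟨1, by simp⟩
lemma Gd.symm {X : Gd p T} {t u : T} (h : X.R t u) : X.R u t := by
  obtain ⟨g, hg⟩ := h
  exact ⟨g⁻¹, fun i => by rw [← hg]; simp⟩
lemma Gd.trans {X : Gd p T} {t u v : T} (h : X.R t u) (h' : X.R u v) : X.R t v := by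
  obtain ⟨g, hg⟩ := h
  obtain ⟨g', hg'⟩ := h'
  exact ⟨g' * g, fun i => by rw [map_mul, Equiv.Perm.mul_apply, hg', hg]⟩

variable [hp : Fact p.Prime]

lemma cyc (X : Gd p T) (e : ℕ) (θ : ZMod (p ^ e) → T →* T) (c : ZMod (p ^ e) → T)
    (hi : Function.Injective (θ 0)) : ∃ Y : Gd p T, ∀ t u (δ : ZMod (p ^ e)),
      (∀ s, X.R (θ s t * c s) (θ (δ + s) u * c (δ + s))) → Y.R t u := by
  have : NeZero (p ^ e) := ⟨pow_ne_zero _ hp.out.ne_zero⟩
  refine ⟨{ P := Wr (sh (p ^ e)) X.P, I := ZMod (p ^ e) × X.I, ρ := wa _ X.ρ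
            pP := Wr.pgroup X.pP (IsPGroup.of_card (n := e) (by simp))
            θ := fun z => (X.θ z.2).comp (θ z.1), c := fun z => X.θ z.2 (c z.1) * X.c z.2
            inj := X.inj.elim fun i h => ⟨(0, i), h.comp hi⟩ }, fun t u δ h => ?_⟩
  choose g hg using h
  refine ⟨⟨fun s => g (s - δ), .ofAdd δ⟩, fun ⟨s, i⟩ => ?_⟩
  have := hg s i
  simp only [map_mul, mul_assoc] at this
  simpa [wa_ap, sh_ap] using this

lemma merge1 (X : Gd p T) (x y t0 : T) (r : ℕ) (hr : 0 < r) (hx : x ^ r = 1) (hy : y ^ r = 1)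
    (j : ℕ) : ∃ Y : Gd p T,
      (∀ t u, (∀ s : ℕ, X.R (x ^ s * t * y ^ s) (x ^ s * u * y ^ s)) →
        ∀ s : ℕ, Y.R (x ^ s * t * y ^ s) (x ^ s * u * y ^ s)) ∧
      ∀ k < r, r ≤ k + j + 1 → Y.R (x ^ k * t0 * y ^ k) (x ^ (r - 1) * t0 * y ^ (r - 1)) := by
  induction j with
  | zero => exact ⟨X, fun _ _ h => h, fun k h1 h2 => by rw [show r - 1 = k by omega]; exact X.refl _⟩
  | succ j ih =>
    obtain ⟨Y, h1, h2⟩ := ih
    have hn : r < p ^ r := Nat.lt_pow_self hp.out.one_lt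
    have : NeZero (p ^ r) := ⟨by omega⟩
    set e : ℕ → T := fun k => x ^ k * t0 * y ^ k with he
    have per : ∀ k, e (k + r) = e k := fun k => by simp [he, pow_add, hx, hy]
    obtain ⟨Z, hZ⟩ := cyc Y r
      (fun s => if s.val < r then (MulAut.conj (x ^ (r - s.val))).toMonoidHom else 1)
      (fun s => if s.val < r then x ^ (r - s.val) * y ^ (r - s.val) else e (r - 1))
      (by rw [if_pos (by simpa using hr)]; exact (MulAut.conj _).injective)
    have hZ' : ∀ t u (δ : ZMod (p ^ r)), (∀ s : ZMod (p ^ r), Y.R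
        (if s.val < r then x ^ (r - s.val) * t * y ^ (r - s.val) else e (r - 1))
        (if (δ + s).val < r then x ^ (r - (δ + s).val) * u * y ^ (r - (δ + s).val)
          else e (r - 1))) → Z.R t u := fun t u δ h => hZ t u δ fun s => by
      convert h s using 1 <;> split_ifs <;> simp [-map_pow, mul_assoc]
    have sft : ∀ (a b : ℕ) (t : T), x ^ a * (x ^ b * t * y ^ b) * y ^ a =
        x ^ (b + a) * t * y ^ (b + a) := fun a b t => by
      rw [add_comm b a, pow_add x, add_comm a b, pow_add y]; simp [mul_assoc]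
    refine ⟨Z, fun t u h s => hZ' _ _ 0 fun s' => ?_, fun k hk hk' => hZ' _ _
      ((r - 1 - k : ℕ) : ZMod (p ^ r)) fun s => ?_⟩
    · rw [zero_add]
      split_ifs
      · rw [sft, sft]; exact h1 t u h _
      · exact Y.refl _
    · have hs := ZMod.val_lt s
      have hv : (((r - 1 - k : ℕ) : ZMod (p ^ r)) + s).val = (r - 1 - k + s.val) % p ^ r := by
        rw [ZMod.val_add, ZMod.val_cast_of_lt (by omega)]
      rw [hv]
      simp only [sft]
      change Y.R (if _ then e _ else _) (if _ then e _ else _)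
      by_cases h : s.val ≤ k
      · rw [Nat.mod_eq_of_lt (by omega), if_pos (by omega), if_pos (by omega),
          show r - 1 + (r - (r - 1 - k + s.val)) = k + (r - s.val) by omega]
        exact Y.refl _
      refine Gd.trans (u := e (r - 1)) ?_ (Gd.symm ?_)
      · split_ifs
        · exact h2 _ (by omega) (by omega)
        · exact Y.refl _
      · by_cases h' : r - 1 - k + s.val < p ^ r
        · rw [Nat.mod_eq_of_lt h', if_neg (by omega)]
          exact Y.refl _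
        · rw [Nat.mod_eq_sub_mod (by omega), Nat.mod_eq_of_lt (by omega), if_pos (by omega),
            show r - 1 + (r - (r - 1 - k + s.val - p ^ r)) =
              r - 1 - (r - 1 - k + s.val - p ^ r) + r by omega, per]
          exact h2 _ (by omega) (by omega)

lemma merge [Finite T] (X : Gd p T) (x y : T) : ∃ Y : Gd p T,
    (∀ t u, (∀ s : ℕ, X.R (x ^ s * t * y ^ s) (x ^ s * u * y ^ s)) → Y.R t u) ∧
      ∀ (t : T) (s : ℕ), Y.R (x ^ s * t * y ^ s) t := by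
  classical
  have hr : 0 < Nat.card T := Nat.card_pos
  have key : ∀ S : Finset T, ∃ Y : Gd p T,
      (∀ t u, (∀ s : ℕ, X.R (x ^ s * t * y ^ s) (x ^ s * u * y ^ s)) →
        ∀ s : ℕ, Y.R (x ^ s * t * y ^ s) (x ^ s * u * y ^ s)) ∧
      ∀ t ∈ S, ∀ s : ℕ, Y.R (x ^ s * t * y ^ s) t := by
    intro S
    induction S using Finset.induction_on with
    | empty => exact ⟨X, fun _ _ h => h, by simp⟩
    | insert a S _ ih =>
      obtain ⟨Y, h1, h2⟩ := ih
      obtain ⟨Z, h3, h4⟩ := merge1 Y x y a _ hr pow_card_eq_one' pow_card_eq_one' (Nat.card T)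
      refine ⟨Z, fun t u h => h3 t u (h1 t u h), fun t ht s => ?_⟩
      rcases Finset.mem_insert.1 ht with rfl | ht
      · have := Gd.trans (h4 _ (Nat.mod_lt s hr) (by omega)) (Gd.symm (h4 0 hr (by omega)))
        simpa using this
      · have := h3 (x ^ s * t * y ^ s) t (fun s' => Gd.trans (by
          have := h2 t ht (s + s')
          rwa [add_comm s s', pow_add x, add_comm s' s, pow_add y, mul_assoc, mul_assoc,
            ← mul_assoc (x ^ s), ← mul_assoc _ (y ^ s), ← mul_assoc] at this) (Gd.symm (h2 t ht s'))) 0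
        simpa using this
  have := Fintype.ofFinite T
  obtain ⟨Y, h1, h2⟩ := key Finset.univ
  exact ⟨Y, fun t u h => by simpa using h1 t u h 0, fun t => h2 t (Finset.mem_univ t)⟩

lemma left [Finite T] (L L' : T → Prop) (x : T) (hL : ∀ l, L l → L (x * l * x⁻¹))
    (hL' : ∀ l, L' l → ∃ s : Fin 3, L ((x ^ s.1)⁻¹ * l))
    (h : ∃ X : Gd p T, ∀ l, L l → ∀ t, X.R (l * t) t) :
    ∃ X : Gd p T, ∀ l, L' l → ∀ t, X.R (l * t) t := by
  obtain ⟨X, hX⟩ := h
  obtain ⟨Y, h1, h2⟩ := merge X x 1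
  have hs : ∀ (s : ℕ) l, L l → L (x ^ s * l * (x ^ s)⁻¹) := by
    intro s l hl
    induction s with
    | zero => simpa using hl
    | succ s ih => convert hL _ ih using 1; rw [pow_succ']; group
  refine ⟨Y, fun l hl t => ?_⟩
  obtain ⟨s, hs'⟩ := hL' l hl
  refine Gd.trans (u := (x ^ s.1)⁻¹ * l * t)
    (by simpa [mul_assoc] using h2 ((x ^ s.1)⁻¹ * l * t) s) (h1 _ _ fun s' => ?_)
  simpa [mul_assoc] using hX _ (hs s' _ hs') (x ^ s' * t)

abbrev S5 := Equiv.Perm (Fin 5)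

theorem gadget : ∃ X : Gd p S5, ∀ t u, X.R t u := by
  have h0 : ∃ X : Gd p S5, ∀ l, l = 1 → ∀ t, X.R (l * t) t :=
    ⟨{ P := Unit, I := Unit, pP := IsPGroup.of_card (n := 0) (by simp), ρ := 1
       θ := fun _ => MonoidHom.id _, c := 1, inj := ⟨(), Function.injective_id⟩ }, by
      rintro _ rfl t; rw [one_mul]; exact Gd.refl _ _⟩
  have h1 := left _ (fun l => l = 1 ∨ l = Equiv.swap 0 1 * Equiv.swap 2 3)
    (Equiv.swap 0 1 * Equiv.swap 2 3) (by decide +kernel) (by decide +kernel) h0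
  have h2 := left _ (fun l => l 4 = 4 ∧ Equiv.Perm.sign l = 1 ∧ l * l = 1)
    (Equiv.swap 0 2 * Equiv.swap 1 3) (by decide +kernel) (by decide +kernel) h1
  have h3 := left _ (fun l => l 4 = 4 ∧ Equiv.Perm.sign l = 1)
    (Equiv.swap 0 1 * Equiv.swap 1 2) (by decide +kernel) (by decide +kernel) h2
  obtain ⟨X, hX⟩ := left _ (fun l => l 4 = 4)
    (Equiv.swap 0 1) (by decide +kernel) (by decide +kernel) h3
  obtain ⟨Y, k1, k2⟩ := merge X 1 (finRotate 5)
  have key : ∀ t, Y.R t 1 := fun t => by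
    obtain ⟨s, hs⟩ := (by decide +kernel :
      ∀ t : S5, ∃ s : Fin 5, (t * (finRotate 5 ^ s.1)⁻¹) 4 = 4) t
    refine Gd.trans (u := finRotate 5 ^ s.1) (k1 _ _ fun s' => ?_) (by simpa using k2 1 s)
    simpa [mul_assoc] using hX _ hs (finRotate 5 ^ s.1 * finRotate 5 ^ s')
  exact ⟨Y, fun t u => Gd.trans (key t) (Gd.symm (key u))⟩

variable (p)
structure St where
  B : Type
  N : Type
  [gB : Group B]
  [fB : Finite B]
  [fN : Finite N]
  pB : IsPGroup p B
  σ : B →* Equiv.Perm N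
  m : N → S5

attribute [instance] St.gB St.fB St.fN
variable {p}

abbrev St.G (X : St p) := Wr X.σ S5

def St.st (X : St p) : X.B →* X.G := (MulAut.conj (Wr.inl X.m)).toMonoidHom.comp Wr.inr

theorem step (X : St p) : ∃ (Y : St p) (φ : X.G →* Y.G), Function.Injective φ ∧
    (∀ a, ∃ a', φ (Wr.inr a) = Wr.inr a') ∧ (∀ a, ∃ a', φ (X.st a) = Y.st a') ∧
    ∀ x, ∃ a a', φ x = Wr.inr a * Y.st a' := by
  obtain ⟨L, hL⟩ := gadget (p := p)
  choose g hg using hL
  obtain ⟨i, hi⟩ := L.inj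
  let Y : St p :=
    { B := Wr X.σ L.P, N := X.N × L.I, σ := wa X.σ L.ρ, pB := Wr.pgroup L.pP X.pB
      m := fun z => L.θ z.2 (X.m z.1) * L.c z.2 }
  have hw : ∀ (a : X.B) (z : X.N × L.I), Y.σ (Wr.inr a)⁻¹ z = (X.σ a⁻¹ z.1, z.2) := fun a z => by
    rw [← map_inv]
    change (_, L.ρ 1 _) = _
    rw [map_one]; rfl
  let φ : X.G →* Y.G :=
    { toFun := fun x => ⟨fun z => L.θ z.2 (x.f z.1), Wr.inr x.a⟩
      map_one' := Wr.ext (funext fun z => map_one _) (map_one Wr.inr)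
      map_mul' := fun x y => Wr.ext (funext fun z => by
        change L.θ z.2 (x.f z.1 * y.f (X.σ x.a⁻¹ z.1)) = L.θ z.2 (x.f z.1) *
          L.θ (Y.σ (Wr.inr x.a)⁻¹ z).2 (y.f (Y.σ (Wr.inr x.a)⁻¹ z).1)
        rw [hw, map_mul]) (map_mul Wr.inr ..) }
  have h1 : ∀ a, φ (Wr.inr a) = Wr.inr (Wr.inr a) := fun a =>
    Wr.ext (funext fun z => map_one (L.θ z.2)) rfl
  let k : Y.G := Wr.inl fun z => L.c z.2
  have h2 : φ (Wr.inl X.m) * k = Wr.inl Y.m := Wr.ext (funext fun z => by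
    change _ * L.c (Y.σ (Wr.inr 1)⁻¹ z).2 = _
    rw [hw]; rfl) (by change Wr.inr 1 * 1 = 1; simp)
  have h3 : ∀ a : X.B, k * Wr.inr (Wr.inr a) = Wr.inr (Wr.inr a) * k := fun a =>
    Wr.ext (funext fun z => by
      change _ * 1 = 1 * L.c (Y.σ (Wr.inr a)⁻¹ z).2
      rw [hw, one_mul, mul_one]; rfl) (by change 1 * Wr.inr a = Wr.inr a * 1; simp)
  refine ⟨Y, φ, (injective_iff_map_eq_one _).2 fun x hx => Wr.ext (funext fun n => hi ?_) ?_,
    fun a => ⟨_, h1 a⟩, fun a => ⟨Wr.inr a, ?_⟩, fun x => ?_⟩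
  · exact (congrFun (congrArg Wr.f hx) (n, i)).trans (map_one _).symm
  · exact congrArg (fun z => z.a.a) hx
  · change φ (_ * _ * _) = _ * _ * _
    rw [map_mul, map_mul, map_inv, h1, ← h2, mul_assoc _ k, h3]
    group
  · let c : Y.B := Wr.inl fun n => g (X.m n) (x.f n * X.m (X.σ x.a⁻¹ n))
    refine ⟨c, c⁻¹ * Wr.inr x.a, ?_⟩
    have e : φ x * Wr.inl Y.m * (Wr.inr (Wr.inr x.a))⁻¹ = Wr.inr c * Wr.inl Y.m * (Wr.inr c)⁻¹ := by
      refine Wr.ext (funext fun z => ?_) (by simp [Wr.inr, Wr.inl, φ])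
      obtain ⟨z, rfl⟩ := (Y.σ c).surjective z
      change _ * Y.m (Y.σ (Wr.inr x.a)⁻¹ _) * 1⁻¹ = 1 * Y.m (Y.σ c⁻¹ _) * 1⁻¹
      rw [hw, map_inv Y.σ, Equiv.Perm.coe_inv, Equiv.symm_apply_apply]
      have e1 : Y.σ c z = (z.1, L.ρ (g (X.m z.1) (x.f z.1 * X.m (X.σ x.a⁻¹ z.1))) z.2) := by
        change (X.σ 1 z.1, L.ρ (c.f (X.σ 1 z.1)) z.2) = _
        rw [map_one]; rfl
      rw [e1]
      have := hg (X.m z.1) (x.f z.1 * X.m (X.σ x.a⁻¹ z.1)) z.2
      rw [map_mul, mul_assoc] at this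
      simpa [φ, Y] using this
    change _ = Wr.inr c * (Wr.inl Y.m * Wr.inr (c⁻¹ * Wr.inr x.a) * (Wr.inl Y.m)⁻¹)
    rw [map_mul, map_inv]
    calc φ x = (φ x * Wr.inl Y.m * (Wr.inr (Wr.inr x.a))⁻¹) * Wr.inr (Wr.inr x.a) *
          (Wr.inl Y.m)⁻¹ := by group
      _ = _ := by rw [e]; group

noncomputable def sq (p : ℕ) [Fact p.Prime] : ℕ → St p
  | 0 => { B := Unit, N := Unit, pB := IsPGroup.of_card (n := 0) (by simp), σ := 1, m := 1 }
  | n + 1 => (step (sq p n)).choose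

noncomputable def ψ (p : ℕ) [Fact p.Prime] (n : ℕ) : (sq p n).G →* (sq p (n + 1)).G :=
  (step (sq p n)).choose_spec.choose

lemma ψ_spec (n : ℕ) : Function.Injective (ψ p n) ∧
    (∀ a, ∃ a', ψ p n (Wr.inr a) = Wr.inr a') ∧
    (∀ a, ∃ a', ψ p n ((sq p n).st a) = (sq p (n + 1)).st a') ∧
    ∀ x, ∃ a a', ψ p n x = Wr.inr a * (sq p (n + 1)).st a' :=
  (step (sq p n)).choose_spec.choose_spec

end Pool.Agent.H.MP_debbfb_al
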